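import Pool.Agent.V5helper10.GK.Stm

/-!
# Project GK, job DRT: de Rham-Betti classes have algebraic values on de Rham vectors
-/

set_option autoImplicit false
set_option linter.unusedSectionVars false

open CategoryTheory AlgebraicGeometry TensorProduct

universe u

namespace Pool.Agent.V5helper82.GK

open Module Matrix
open Pool.Agent.H914 Pool.Agent.H914.VarClass Pool.Agent.H914.VarClass.Obj
  Pool.Agent.H914.WeilCohomology
open Pool.Agent.Y133.Half Pool.Agent.Y121.AH
open Pool.Agent.N996.BP Pool.Agent.N996.BP.Geo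
open Pool.Agent.V5helper10.KSC Pool.Agent.V5helper10.GK
open Pool.Agent.Y133.Per (DeRham IsDRB GPC tm twist twoPiI baseTr baseMap baseMap_tm baseTr_tm tm_mul twoPiI_ne)

variable {k : Type u} [Field k] {𝒱 : VarClass k} {ops : CycleOps 𝒱}
  (W : WeilCohomology.{u, 0} ops) [Algebra W.K ℂ] (F : Subfield ℂ) (D : DeRham W F) (X : 𝒱.Obj)
  {κ : Type} [Fintype κ] [DecidableEq κ] (f : Basis κ W.K (W.H X)) (cod : κ → ℕ)

theorem wb_mem (hf : ∀ i, f i ∈ W.gr X (2 * cod i)) : ∀ (n : ℕ) (I : Fin (n + 1) → κ),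
    wb f n I ∈ W.gr (pw X n) (2 * ∑ l, cod (I l)) := by
  intro n
  induction n with
  | zero =>
    intro I
    rw [wb_zero, Fin.sum_univ_one]
    exact hf _
  | succ n ih =>
    intro I
    rw [wb_succ, Fin.sum_univ_castSucc, mul_add]
    exact W.mul_mem (W.map_mem _ (ih _)) (W.map_mem _ (hf _))

theorem vec_mem (P : Matrix κ κ ℂ)
    (hP : ∀ l, ∑ i, tm (twoPiI ^ cod i * P i l) (f i) ∈ D.dR X) :
    ∀ (n : ℕ) (J : Fin (n + 1) → κ),
      ∑ I : Fin (n + 1) → κ, tm (∏ l, (twoPiI ^ cod (I l) * P (I l) (J l))) (wb f n I) ∈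
        D.dR (pw X n) := by
  intro n
  induction n with
  | zero =>
    intro J
    have h1 := hP (J 0)
    have h2 : ∑ I : Fin (0 + 1) → κ,
        tm (K := W.K) (∏ l, (twoPiI ^ cod (I l) * P (I l) (J l))) (wb f 0 I) =
        ∑ i, tm (K := W.K) (twoPiI ^ cod i * P i (J 0)) (f i) := by
      refine Fintype.sum_equiv (Equiv.funUnique (Fin 1) κ) _ _ fun I => ?_
      rw [wb_zero, Fin.prod_univ_one]
      rfl
    rw [h2]
    exact h1
  | succ n ih =>
    intro J
    have h1 := D.map (pfst X n) _ (ih (fun i => J i.castSucc))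
    have h2 := D.map (psnd X n) _ (hP (J (Fin.last _)))
    have h3 := (D.form _).mul _ h1 _ h2
    rw [map_sum, map_sum, Finset.sum_mul_sum, ← Fintype.sum_prod_type'] at h3
    convert h3 using 1
    refine (Fintype.sum_equiv ((Equiv.prodComm (Fin (n + 1) → κ) κ).trans
      (Fin.snocEquiv fun _ => κ)) _ _ ?_).symm
    rintro ⟨I', i⟩
    have e1 : ((Equiv.prodComm (Fin (n + 1) → κ) κ).trans (Fin.snocEquiv fun _ => κ)) (I', i) =
        Fin.snoc I' i := rfl
    rw [e1, baseMap_tm, baseMap_tm, tm_mul, wb_succ]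
    conv_rhs => rw [Fin.prod_univ_castSucc]
    simp only [Fin.snoc_castSucc, Fin.snoc_last]

theorem t_DRT : S_DRT.{u} := by
  intro k _ 𝒱 ops W _ F D X κ _ _ f cod hf P hP n j c hc J
  have hy := vec_mem W F D X f cod P hP n J
  have hx : twist j c ∈ D.dR (pw X n) := hc.2
  obtain ⟨ρ, hρ, hρe⟩ := (D.form (pw X n)).tr _ ((D.form (pw X n)).mul _ hx _ hy)
  have key : baseTr (W.tr (pw X n)) (twist j c *
      ∑ I : Fin (n + 1) → κ, tm (∏ l, (twoPiI ^ cod (I l) * P (I l) (J l))) (wb f n I)) =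
      twoPiI ^ (pw X n).dim *
        ∑ I : Fin (n + 1) → κ, algebraMap W.K ℂ (W.tr (pw X n) (c * wb f n I)) *
          ∏ l, P (I l) (J l) := by
    rw [Finset.mul_sum, map_sum, Finset.mul_sum]
    apply Finset.sum_congr rfl
    intro I _
    rw [twist, tm_mul, baseTr_tm]
    by_cases h : j + ∑ l, cod (I l) = (pw X n).dim
    · rw [Finset.prod_mul_distrib, Finset.prod_pow_eq_pow_sum, ← mul_assoc, ← pow_add, h]
      ring
    · rw [W.tr_eq_zero (W.mul_mem hc.1 (wb_mem W X f cod hf n I)) (by omega)]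
      simp
  rw [key] at hρe
  have h5 := mul_left_cancel₀ (pow_ne_zero _ twoPiI_ne) hρe
  rw [h5]
  exact hρ

end Pool.Agent.V5helper82.GK
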