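import Pool.Agent.V5helper10.GK.Stm

/-!
# Project GK, job IRR: Schur's lemma
-/

set_option autoImplicit false

open Module Matrix

namespace Pool.Agent.V5helper82.GK
open Pool.Agent.V5helper10.GK
open Pool.Agent.W544.K3 (K3Type bil app cj)

theorem app_eq {r : ℕ} (x : Matrix (Fin r) (Fin r) ℚ) (v : Fin r → ℂ) :
    app x v = x.map (fun q : ℚ => (q : ℂ)) *ᵥ v := by
  funext i
  simp only [app, Matrix.mulVec, dotProduct, Matrix.map_apply]

theorem hodgeEnd_one {r : ℕ} (Y : K3Type r) : Y.HodgeEnd 1 := by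
  have h : ∀ v : Fin r → ℂ, app (1 : Matrix (Fin r) (Fin r) ℚ) v = v := by
    intro v
    rw [app_eq]
    have h1 : (1 : Matrix (Fin r) (Fin r) ℚ).map (fun q : ℚ => (q : ℂ)) = 1 :=
      Matrix.map_one _ Rat.cast_zero Rat.cast_one
    rw [h1, Matrix.one_mulVec]
  refine ⟨⟨1, by rw [h, one_smul]⟩, fun v h1 h2 => by rw [h]; exact ⟨h1, h2⟩⟩

theorem t_IRR : S_IRR := by
  intro r Y hr hirr
  have hlie : ∀ x, x ∈ Y.lie ↔ x ∈ lie Y.D := fun x => Iff.rfl
  have key : ∀ M : Submodule ℂ (Fin r → ℂ), (∀ x ∈ Y.lie, ∀ v ∈ M, app x v ∈ M) → M = ⊥ ∨ M = ⊤ := by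
    intro M hM
    exact hirr M fun x hx v hv => by
      rw [← app_eq]
      exact hM x hx v hv
  refine ⟨fun M hM => ?_, fun P hP => ?_⟩
  · rcases key M hM with rfl | rfl
    · exact ⟨⊤, fun _ _ _ _ => Submodule.mem_top, isCompl_bot_top⟩
    · refine ⟨⊥, fun x _ v hv => ?_, isCompl_top_bot⟩
      rw [Submodule.mem_bot] at hv ⊢
      rw [hv, app_eq, Matrix.mulVec_zero]
  · have hne : Nonempty (Fin r) := ⟨⟨0, hr⟩⟩
    have hnt : Nontrivial (Fin r → ℂ) := Function.nontrivial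
    obtain ⟨μ, hμ⟩ := Module.End.exists_eigenvalue (Matrix.toLin' P)
    have hst : ∀ x ∈ Y.lie, ∀ v ∈ Module.End.eigenspace (Matrix.toLin' P) μ,
        app x v ∈ Module.End.eigenspace (Matrix.toLin' P) μ := by
      intro x hx v hv
      rw [Module.End.mem_eigenspace_iff, Matrix.toLin'_apply] at hv ⊢
      rw [app_eq, Matrix.mulVec_mulVec, hP x hx, ← Matrix.mulVec_mulVec, hv, Matrix.mulVec_smul]
    have h1 : Module.End.eigenspace (Matrix.toLin' P) μ = ⊤ :=
      (key _ hst).resolve_left hμ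
    have h2 : P = μ • (1 : Matrix (Fin r) (Fin r) ℂ) := by
      apply Matrix.toLin'.injective
      apply LinearMap.ext
      intro v
      have hv : v ∈ Module.End.eigenspace (Matrix.toLin' P) μ := by rw [h1]; exact Submodule.mem_top
      rw [Module.End.mem_eigenspace_iff] at hv
      rw [hv, map_smul, LinearMap.smul_apply, Matrix.toLin'_one, LinearMap.id_apply]
    rw [h2]
    refine Submodule.smul_mem _ _ (Submodule.subset_span ⟨1, hodgeEnd_one Y, ?_⟩)
    exact Matrix.map_one _ Rat.cast_zero Rat.cast_one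

end Pool.Agent.V5helper82.GK
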