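import Pool.Agent.V5helper10.GK.Stm2
import Pool.Agent.V5helper82.GK.DRT

/-!
# Project GK, job RTD: classes with algebraic values on de Rham vectors are de Rham-Betti classes
-/

set_option autoImplicit false
set_option linter.unusedSectionVars false

open CategoryTheory AlgebraicGeometry TensorProduct

universe u

namespace Pool.Agent.V5helper82.GK

open Module Matrix
open Pool.Agent.H914 Pool.Agent.H914.VarClass Pool.Agent.H914.VarClass.Obj
  Pool.Agent.H914.WeilCohomology
open Pool.Agent.Y133.Half Pool.Agent.Y121.AH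
open Pool.Agent.N996.BP Pool.Agent.N996.BP.Geo
open Pool.Agent.V5helper10.KSC Pool.Agent.V5helper10.GK
open Pool.Agent.Y133.Per (DeRham IsDRB GPC tm twist twoPiI baseTr baseMap baseMap_tm baseTr_tm tm_mul twoPiI_ne
  smul_tm tm_add tm_zero tm_smul base_ind Base dRSub mem_of_pair baseTr_nondeg)

variable {k : Type u} [Field k] {𝒱 : VarClass k} {ops : CycleOps 𝒱}

/-- The Kronecker power of an invertible matrix is invertible. -/
lemma kron_inv {κ : Type} [Fintype κ] [DecidableEq κ] (m : ℕ) (Q R : Matrix κ κ ℂ) (h : Q * R = 1) :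
    (Matrix.of fun (I J : Fin m → κ) => ∏ l, Q (I l) (J l)) *
      (Matrix.of fun (I J : Fin m → κ) => ∏ l, R (I l) (J l)) = 1 := by
  classical
  ext I I'
  rw [Matrix.mul_apply]
  simp only [Matrix.of_apply]
  simp only [← Finset.prod_mul_distrib]
  have h1 : ∑ J : Fin m → κ, ∏ l, Q (I l) (J l) * R (J l) (I' l) =
      ∏ l, ∑ j, Q (I l) j * R j (I' l) := by
    rw [Finset.prod_univ_sum, Fintype.piFinset_univ]
  rw [h1]
  have h2 : ∀ l, ∑ j, Q (I l) j * R j (I' l) = (1 : Matrix κ κ ℂ) (I l) (I' l) := by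
    intro l
    rw [← h, Matrix.mul_apply]
  simp only [h2]
  by_cases h3 : I = I'
  · subst h3
    simp
  · rw [Matrix.one_apply_ne h3]
    obtain ⟨l, hl⟩ := Function.ne_iff.1 h3
    exact Finset.prod_eq_zero (Finset.mem_univ l) (Matrix.one_apply_ne hl)

theorem t_RTD : S_RTD.{u} := by
  classical
  intro k _ 𝒱 ops W _ F D X κ _ _ f cod hf P hPd hP n j c hc hval
  have hy := vec_mem W F D X f cod P hP n
  set y : (Fin (n + 1) → κ) → Base W.K (W.H (pw X n)) := fun J =>
    ∑ I : Fin (n + 1) → κ, tm (∏ l, (twoPiI ^ cod (I l) * P (I l) (J l))) (wb f n I) with hyd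
  have h0 : twoPiI ^ (pw X n).dim ≠ 0 := pow_ne_zero _ twoPiI_ne
  refine ⟨hc, ?_⟩
  -- the matrix
  set Q : Matrix κ κ ℂ := Matrix.of fun i l => twoPiI ^ cod i * P i l with hQ
  have hQd : Q.det ≠ 0 := by
    have h1 : Q = Matrix.diagonal (fun i => twoPiI ^ cod i) * P := by
      ext i l
      rw [Matrix.diagonal_mul, hQ, Matrix.of_apply]
    rw [h1, Matrix.det_mul, Matrix.det_diagonal]
    exact mul_ne_zero (Finset.prod_ne_zero_iff.2 fun i _ => pow_ne_zero _ twoPiI_ne) hPd
  have hQi : Q * Q⁻¹ = 1 := Matrix.mul_nonsing_inv _ (isUnit_iff_ne_zero.2 hQd)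
  have hN := kron_inv (n + 1) Q Q⁻¹ hQi
  let U : Submodule F (Base W.K (W.H (pw X n))) := Submodule.span F (Set.range y)
  have hU : U ≤ dRSub D (pw X n) := Submodule.span_le.2 (by
    rintro _ ⟨J, rfl⟩
    exact hy J)
  have hyU : ∀ J, y J ∈ U := fun J => Submodule.subset_span ⟨J, rfl⟩
  -- the span
  have hspan : Submodule.span ℂ (U : Set (Base W.K (W.H (pw X n)))) = ⊤ := by
    rw [eq_top_iff]
    have hyS : ∀ J, y J ∈ Submodule.span ℂ (U : Set (Base W.K (W.H (pw X n)))) := fun J =>
      Submodule.subset_span (hyU J)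
    have hbS : ∀ I, tm 1 (wb f n I) ∈ Submodule.span ℂ (U : Set (Base W.K (W.H (pw X n)))) := by
      intro I
      have h1 : tm 1 (wb f n I) = ∑ J : Fin (n + 1) → κ, (∏ l, Q⁻¹ (J l) (I l)) • y J := by
        simp only [hyd, Finset.smul_sum, smul_tm]
        rw [Finset.sum_comm]
        have h2 : ∀ I' : Fin (n + 1) → κ, ∑ J : Fin (n + 1) → κ,
            tm (K := W.K) ((∏ l, Q⁻¹ (J l) (I l)) * ∏ l, (twoPiI ^ cod (I' l) * P (I' l) (J l)))
              (wb f n I') = ((1 : Matrix (Fin (n + 1) → κ) (Fin (n + 1) → κ) ℂ) I' I) •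
                tm (K := W.K) 1 (wb f n I') := by
          intro I'
          rw [← hN, Matrix.mul_apply, Finset.sum_smul]
          refine Finset.sum_congr rfl fun J _ => ?_
          rw [smul_tm, mul_one, mul_comm]
          rfl
        simp only [h2]
        rw [Finset.sum_eq_single I]
        · rw [Matrix.one_apply_eq, one_smul]
        · intro I' _ hne
          rw [Matrix.one_apply_ne hne, zero_smul]
        · intro h
          exact absurd (Finset.mem_univ I) h
      rw [h1]
      exact Submodule.sum_mem _ fun J _ => Submodule.smul_mem _ _ (hyS J)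
    intro z _
    refine base_ind (p := fun z => z ∈ Submodule.span ℂ (U : Set (Base W.K (W.H (pw X n))))) ?_ ?_ ?_ z
    · exact Submodule.zero_mem _
    · intro r a
      have h1 : tm r a = ∑ I, (r * algebraMap W.K ℂ ((wb f n).repr a I)) • tm (K := W.K) 1 (wb f n I) := by
        conv_lhs => rw [← (wb f n).sum_repr a]
        have h2 : ∀ (s : Finset (Fin (n + 1) → κ)) (g : (Fin (n + 1) → κ) → W.H (pw X n)),
            tm (K := W.K) r (∑ I ∈ s, g I) = ∑ I ∈ s, tm (K := W.K) r (g I) := by
          intro s g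
          induction s using Finset.induction_on with
          | empty => simp [tm_zero]
          | insert i s hi ih => rw [Finset.sum_insert hi, Finset.sum_insert hi, tm_add, ih]
        rw [h2]
        refine Finset.sum_congr rfl fun I _ => ?_
        rw [tm_smul, smul_tm, smul_tm, mul_one, mul_comm]
      rw [h1]
      exact Submodule.sum_mem _ fun I _ => Submodule.smul_mem _ _ (hbS I)
    · intro a a' ha ha'
      exact Submodule.add_mem _ ha ha'
  let B : Base W.K (W.H (pw X n)) →ₗ[ℂ] Base W.K (W.H (pw X n)) →ₗ[ℂ] ℂ :=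
    (twoPiI ^ (pw X n).dim)⁻¹ • ((LinearMap.mul ℂ (Base W.K (W.H (pw X n)))).compr₂ (baseTr (W.tr (pw X n))))
  have hBe : ∀ v w, B v w = (twoPiI ^ (pw X n).dim)⁻¹ * baseTr (W.tr (pw X n)) (v * w) := fun v w => rfl
  have key : ∀ v w r, baseTr (W.tr (pw X n)) (v * w) = twoPiI ^ (pw X n).dim * r → B v w = r := by
    intro v w r h
    rw [hBe, h, ← mul_assoc, inv_mul_cancel₀ h0, one_mul]
  have hxy : ∀ J, baseTr (W.tr (pw X n)) (twist j c * y J) = twoPiI ^ (pw X n).dim *
        ∑ I : Fin (n + 1) → κ, algebraMap W.K ℂ (W.tr (pw X n) (c * wb f n I)) * ∏ l, P (I l) (J l) := by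
    intro J
    simp only [hyd]
    rw [Finset.mul_sum, map_sum, Finset.mul_sum]
    apply Finset.sum_congr rfl
    intro I _
    rw [twist, tm_mul, baseTr_tm]
    by_cases h : j + ∑ l, cod (I l) = (pw X n).dim
    · rw [Finset.prod_mul_distrib, Finset.prod_pow_eq_pow_sum, ← mul_assoc, ← pow_add, h]
      ring
    · rw [W.tr_eq_zero (W.mul_mem hc (wb_mem W X f cod hf n I)) (by omega)]
      simp
  have hmem : twist j c ∈ U := by
    refine mem_of_pair U hspan B ?_ ?_ ?_
    · intro v hv
      apply baseTr_nondeg _ (Pool.Agent.Y133.Half.exists_dual_class W)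
      intro w
      have h1 := hv w
      rw [hBe] at h1
      exact (mul_eq_zero.1 h1).resolve_left (inv_ne_zero h0)
    · intro v hv w hw
      obtain ⟨r, hr, h⟩ := (D.form (pw X n)).tr _ ((D.form (pw X n)).mul v (hU hv) w (hU hw))
      rw [key v w r h]
      exact hr
    · intro w hw
      refine Submodule.span_induction (p := fun w _ => B (twist j c) w ∈ F) ?_ ?_ ?_ ?_ hw
      · rintro _ ⟨J, rfl⟩
        rw [key _ _ _ (hxy J)]
        exact hval J
      · rw [map_zero]
        exact F.zero_mem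
      · intro w w' _ _ h1 h2
        rw [map_add]
        exact F.add_mem h1 h2
      · intro r w _ h1
        have h2 : r • w = (r : ℂ) • w := rfl
        rw [h2, map_smul, smul_eq_mul]
        exact F.mul_mem r.2 h1
  exact hU hmem

end Pool.Agent.V5helper82.GK
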